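import Pool.Agent.H67.HM.Stm2

open Polynomial MeasureTheory Filter Topology

namespace HM

namespace KeyAux2

theorem bd_finset {r : ℝ} {f : ℕ → ℂ} {B : ℝ} (h : Bd r f B) (s : Finset ℕ) :
    ∑ k ∈ s, ‖f k‖ ^ r ≤ B := by
  refine le_trans (Finset.sum_le_sum_of_subset_of_nonneg
    (t := Finset.range (s.sup id + 1)) ?_ ?_) (h _)
  · intro k hk
    simp only [Finset.mem_range]
    have := Finset.le_sup (f := id) hk
    simp at this; omega
  · intros; positivity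

theorem mem_of_bd {p : ENNReal} {f : ℕ → ℂ} {B : ℝ} (h : Bd p.toReal f B) :
    Memℓp f p := memℓp_gen' (C := B) (bd_finset h)

theorem norm_le_of_bd {p : ENNReal} (hp : 0 < p.toReal) {b : lp (fun _ : ℕ => ℂ) p} {B : ℝ}
    (hB : 0 ≤ B) (h : Bd p.toReal (fun k => b k) (B ^ p.toReal)) : ‖b‖ ≤ B :=
  lp.norm_le_of_forall_sum_le hp hB (bd_finset h)

theorem bd_mono {r : ℝ} {f : ℕ → ℂ} {B B' : ℝ} (h : Bd r f B) (hB : B ≤ B') : Bd r f B' :=
  fun n => (h n).trans hB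

theorem tendsto_of_mem {p : ENNReal} (hp : 0 < p.toReal) (b : lp (fun _ : ℕ => ℂ) p) :
    Tendsto (fun k => b k) atTop (𝓝 0) := by
  have h1 : Summable (fun k => ‖b k‖ ^ p.toReal) := (lp.memℓp b).summable hp
  have h2 := h1.tendsto_atTop_zero
  have h3 : Tendsto (fun k => (‖b k‖ ^ p.toReal) ^ (1 / p.toReal)) atTop (𝓝 (0 ^ (1 / p.toReal))) :=
    h2.rpow_const (Or.inr (by positivity))
  rw [Real.zero_rpow (by positivity)] at h3
  rw [tendsto_zero_iff_norm_tendsto_zero]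
  refine h3.congr fun k => ?_
  rw [← Real.rpow_mul (norm_nonneg _), mul_one_div_cancel hp.ne', Real.rpow_one]

/-- shifting `T` through `J` -/
theorem T_J_iter {p : ENNReal} [Fact (1 ≤ p)] {X : Type} [NormedAddCommGroup X]
    [NormedSpace ℂ X] (S : Sys p X) (δ : ℝ) (hδ : 0 < δ) (k : ℕ) :
    ∀ b b' : lp (fun _ : ℕ => ℂ) p, (∀ j, b' j = b (j + k)) →
      S.T (k * δ) (S.J δ b) = S.J δ b' := by
  induction k with
  | zero =>
    intro b b' h
    have : b' = b := by ext j; simpa using h j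
    rw [this]; simp [S.T_zero]
  | succ k ih =>
    intro b b' h
    -- b'' = shift by k
    have hm : Memℓp (fun j => b (j + k)) p := by
      have hb := lp.memℓp b
      by_cases hp : p = ⊤
      · subst hp
        rw [memℓp_infty_iff] at hb ⊢
        obtain ⟨C, hC⟩ := hb
        refine ⟨C, ?_⟩
        rintro x ⟨j, rfl⟩
        exact hC ⟨j + k, rfl⟩
      · have hp0 : 0 < p.toReal :=
          ENNReal.toReal_pos (by
            have : (1 : ENNReal) ≤ p := Fact.out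
            intro h0; rw [h0] at this; simp at this) hp
        rw [memℓp_gen_iff hp0] at hb ⊢
        exact (summable_nat_add_iff k).2 hb
    have e1 := ih b ⟨fun j => b (j + k), hm⟩ (fun j => rfl)
    have e2 : ((k + 1 : ℕ) : ℝ) * δ = δ + k * δ := by push_cast; ring
    rw [e2, S.T_add δ (k * δ) hδ.le (by positivity), e1]
    refine S.T_J δ hδ _ _ fun j => ?_
    rw [h j]
    change b (j + (k + 1)) = b (j + 1 + k)
    rw [show j + (k + 1) = j + 1 + k by ring]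

theorem geo_mem {p : ENNReal} (hp : 1 ≤ p.toReal) {l : ℂ} (hl : ‖l‖ < 1) :
    Memℓp (fun k : ℕ => l ^ k) p := by
  refine memℓp_gen ?_
  refine Summable.of_nonneg_of_le (fun k => by positivity) (fun k => ?_)
    (summable_geometric_of_lt_one (norm_nonneg l) hl)
  rw [norm_pow]
  have h1 : ‖l‖ ^ k ≤ 1 := pow_le_one₀ (norm_nonneg _) hl.le
  have := Real.rpow_le_rpow_of_exponent_ge' (by positivity : 0 ≤ ‖l‖ ^ k) h1 zero_le_one hp
  simpa using this

theorem bd_shift {r : ℝ} {f : ℕ → ℂ} {B : ℝ} (h : Bd r f B) (L : ℕ) :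
    Bd r (fun k => f (L + k)) B := by
  intro n
  have h1 := h (L + n)
  rw [Finset.sum_range_add] at h1
  have h2 : 0 ≤ ∑ x ∈ Finset.range L, ‖f x‖ ^ r :=
    Finset.sum_nonneg fun _ _ => by positivity
  linarith

end KeyAux2

open KeyAux2

theorem KEY2_proved (hDisc : S_DSC2) (hRec : S_REC) (hDual : S_DUAL) (hHol : S_HOL) : S_KEY2 := by
  intro p _ hp1 hp2 X _ _ S g hg m f hf hgT φ hφ ε hε htail
  classical
  have hptop : p ≠ ⊤ := hp2.ne
  have hP2 : 2 < p.toReal := by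
    have := (ENNReal.toReal_lt_toReal ENNReal.ofNat_ne_top hptop).2 hp1
    simpa using this
  have hP1 : 1 < p.toReal := by linarith
  have hp1' : 1 < p := lt_trans (by norm_num) hp1
  have hP0 : 0 < p.toReal := by linarith
  obtain ⟨K, hK, hKD⟩ := hDisc p.toReal hP2 m
  obtain ⟨ε₁, hε₁, hε₁a, hε₁b⟩ : ∃ ε₁ : ℝ, 0 < ε₁ ∧ K * ε₁ ≤ ε / 8 ∧ ε₁ ≤ ε / 128 := by
    refine ⟨min (ε / (8 * K)) (ε / 128), by positivity, ?_, min_le_right _ _⟩
    calc K * min (ε / (8 * K)) (ε / 128) ≤ K * (ε / (8 * K)) := by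
          gcongr; exact min_le_left _ _
      _ = ε / 8 := by field_simp
  -- tails
  have hR : ∃ R : ℝ, 0 < R ∧ (∀ i, ∀ δ, 0 < δ → ∀ (k n : ℕ), R ≤ k * δ →
      ∑ j ∈ Finset.range n, ‖S.w δ (S.T ((k + j : ℕ) * δ) (f i))‖ ^ p.toReal ≤ ε₁ ^ p.toReal) ∧
      (∀ δ, 0 < δ → ∀ (k n : ℕ), R ≤ k * δ →
      ∑ j ∈ Finset.range n, ‖S.w δ (S.T ((k + j : ℕ) * δ) φ)‖ ^ p.toReal ≤ ε₁ ^ p.toReal) := by
    choose R hR using fun i => htail (f i) (ε₁ ^ p.toReal) (by positivity)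
    obtain ⟨R', hR'⟩ := htail φ (ε₁ ^ p.toReal) (by positivity)
    have hs : ∀ i, R i ≤ ∑ i, |R i| := fun i =>
      (le_abs_self _).trans (Finset.single_le_sum (f := fun i => |R i|)
        (fun _ _ => abs_nonneg _) (Finset.mem_univ i))
    have h0 : 0 ≤ ∑ i, |R i| := Finset.sum_nonneg fun _ _ => abs_nonneg _
    have h1 : 0 ≤ |R'| := abs_nonneg _
    have h2 : R' ≤ |R'| := le_abs_self _
    refine ⟨∑ i, |R i| + |R'| + 1, by positivity, fun i δ hδ k n hk => hR i δ hδ k n ?_,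
      fun δ hδ k n hk => hR' δ hδ k n ?_⟩
    · have := hs i; linarith
    · linarith
  obtain ⟨R, hR0, hRf, hRφ⟩ := hR
  have hC : ∃ C : ℝ, 0 < C ∧ (∀ i, ∀ δ, 0 < δ → δ ≤ 1 → ∀ b : lp (fun _ : ℕ => ℂ) p,
      (∀ k : ℕ, b k = S.w δ (S.T (k * δ) (f i))) → ‖f i - S.J δ b‖ ≤ C * δ) ∧
      (∀ δ, 0 < δ → δ ≤ 1 → ∀ b : lp (fun _ : ℕ => ℂ) p,
      (∀ k : ℕ, b k = S.w δ (S.T (k * δ) φ)) → ‖φ - S.J δ b‖ ≤ C * δ) := by
    choose C hC using fun i => S.Sm_est (f i) (hf i)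
    obtain ⟨C', hC'⟩ := S.Sm_est φ hφ
    have hs : ∀ i, C i ≤ ∑ i, |C i| := fun i =>
      (le_abs_self _).trans (Finset.single_le_sum (f := fun i => |C i|)
        (fun _ _ => abs_nonneg _) (Finset.mem_univ i))
    have h0 : 0 ≤ ∑ i, |C i| := Finset.sum_nonneg fun _ _ => abs_nonneg _
    have h1 : 0 ≤ |C'| := abs_nonneg _
    have h2 : C' ≤ |C'| := le_abs_self _
    refine ⟨∑ i, |C i| + |C'| + 1, by positivity, fun i δ hδ h1δ b hb =>
      (hC i δ hδ h1δ b hb).trans ?_, fun δ hδ h1δ b hb => (hC' δ hδ h1δ b hb).trans ?_⟩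
    · have := hs i; gcongr; linarith
    · gcongr; linarith
  obtain ⟨C, hC0, hCf, hCφ⟩ := hC
  -- choice of δ and L
  obtain ⟨δ, hδ, hδ1, hδ2, hδ3⟩ : ∃ δ : ℝ, 0 < δ ∧ δ ≤ 1 ∧ C * δ ≤ ε / 8 ∧
      2 * (R + 2) * C ^ 2 * δ ≤ ε₁ ^ 2 := by
    refine ⟨min 1 (min (ε / (8 * C)) (ε₁ ^ 2 / (2 * (R + 2) * C ^ 2))), by positivity,
      min_le_left _ _, ?_, ?_⟩
    · calc C * min 1 (min (ε / (8 * C)) (ε₁ ^ 2 / (2 * (R + 2) * C ^ 2)))
          ≤ C * (ε / (8 * C)) := by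
            gcongr; exact (min_le_right _ _).trans (min_le_left _ _)
        _ = ε / 8 := by field_simp
    · calc 2 * (R + 2) * C ^ 2 * min 1 (min (ε / (8 * C)) (ε₁ ^ 2 / (2 * (R + 2) * C ^ 2)))
          ≤ 2 * (R + 2) * C ^ 2 * (ε₁ ^ 2 / (2 * (R + 2) * C ^ 2)) := by
            gcongr; exact (min_le_right _ _).trans (min_le_right _ _)
        _ = ε₁ ^ 2 := by field_simp
  obtain ⟨L, hL0, hL1, hL2⟩ : ∃ L : ℕ, 0 < L ∧ R ≤ L * δ ∧ L * δ ≤ R + 2 := by
    refine ⟨⌈R / δ⌉₊ + 1, Nat.succ_pos _, ?_, ?_⟩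
    · have := Nat.le_ceil (R / δ)
      push_cast
      have h2 : R / δ * δ ≤ ⌈R / δ⌉₊ * δ := by gcongr
      rw [div_mul_cancel₀ _ hδ.ne'] at h2
      nlinarith
    · have := Nat.ceil_lt_add_one (a := R / δ) (by positivity)
      push_cast
      have h2 : (⌈R / δ⌉₊ : ℝ) * δ ≤ (R / δ + 1) * δ := by gcongr
      have h3 : (R / δ + 1) * δ = R + δ := by field_simp
      rw [h3] at h2
      linarith
  -- sequences
  set a : Fin m → ℕ → ℂ := fun i k => S.w δ (S.T (k * δ) (f i)) with ha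
  set aφ : ℕ → ℂ := fun k => S.w δ (S.T (k * δ) φ) with haφ
  have habd : ∀ i, Bd p.toReal (a i) (‖f i‖ ^ p.toReal) := fun i n => S.w_sum δ hδ (f i) n
  have haφbd : Bd p.toReal aφ (‖φ‖ ^ p.toReal) := fun n => S.w_sum δ hδ φ n
  -- the functional
  have hJn : ‖S.J δ‖ ≤ 1 := ContinuousLinearMap.opNorm_le_bound _ zero_le_one
    (fun b => by simpa using S.J_le δ hδ b)
  have hgJ : ‖g.comp (S.J δ)‖ ≤ 1 := by
    refine (ContinuousLinearMap.opNorm_comp_le _ _).trans ?_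
    calc ‖g‖ * ‖S.J δ‖ ≤ 1 * 1 := by gcongr
      _ = 1 := one_mul 1
  obtain ⟨γ, hγ1, hγ2⟩ := hDual p hp1' hp2 (g.comp (S.J δ)) hgJ
  have hgle : ∀ x, ‖g x‖ ≤ ‖x‖ := fun x => by
    calc ‖g x‖ ≤ ‖g‖ * ‖x‖ := g.le_opNorm x
      _ ≤ 1 * ‖x‖ := by gcongr
      _ = ‖x‖ := one_mul _
  have hkey : ∀ i k, ‖∑' j : ℕ, γ j * a i (j + k)‖ ≤ C * δ := by
    intro i k
    have hm' : Bd p.toReal (fun j => a i (j + k)) (‖f i‖ ^ p.toReal) := by
      intro n
      have h1 := habd i (k + n)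
      rw [Finset.sum_range_add] at h1
      have h2 : 0 ≤ ∑ x ∈ Finset.range k, ‖a i x‖ ^ p.toReal :=
        Finset.sum_nonneg fun _ _ => by positivity
      have h3 : ∑ j ∈ Finset.range n, ‖a i (j + k)‖ ^ p.toReal
          = ∑ x ∈ Finset.range n, ‖a i (k + x)‖ ^ p.toReal :=
        Finset.sum_congr rfl fun x _ => by rw [add_comm]
      rw [h3]; linarith
    let b : lp (fun _ : ℕ => ℂ) p := ⟨a i, mem_of_bd (habd i)⟩
    let b' : lp (fun _ : ℕ => ℂ) p := ⟨fun j => a i (j + k), mem_of_bd hm'⟩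
    have e1 : ∑' j : ℕ, γ j * a i (j + k) = g (S.J δ b') := (hγ2 b').tsum_eq
    have e2 : S.T (k * δ) (S.J δ b) = S.J δ b' := T_J_iter S δ hδ k b b' (fun j => rfl)
    have hk0 : (0 : ℝ) ≤ k * δ := by positivity
    have e3 : g (S.J δ b') = g (S.T (k * δ) (S.J δ b - f i)) := by
      rw [map_sub, map_sub, e2, hgT i _ hk0, sub_zero]
    rw [e1, e3]
    calc ‖g (S.T (k * δ) (S.J δ b - f i))‖ ≤ ‖S.T (k * δ) (S.J δ b - f i)‖ := hgle _
      _ ≤ ‖S.J δ b - f i‖ := S.T_le _ hk0 _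
      _ = ‖f i - S.J δ b‖ := norm_sub_rev _ _
      _ ≤ C * δ := hCf i δ hδ hδ1 b (fun k => rfl)
  have hkey2 : ∀ i k, 2 * L * ‖∑' j : ℕ, γ j * a i (j + k)‖ ^ 2 ≤ ε₁ ^ 2 := by
    intro i k
    calc 2 * (L : ℝ) * ‖∑' j : ℕ, γ j * a i (j + k)‖ ^ 2
        ≤ 2 * (L : ℝ) * (C * δ) ^ 2 := by gcongr; exact hkey i k
      _ = 2 * (L * δ) * C ^ 2 * δ := by ring
      _ ≤ 2 * (R + 2) * C ^ 2 * δ := by gcongr
      _ ≤ ε₁ ^ 2 := hδ3
  obtain ⟨η, hη, hη2⟩ : ∃ η : ℝ, 0 < η ∧ η * ∑ k ∈ Finset.range L, ‖aφ k‖ ≤ ε / 8 := by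
    have h0 : 0 ≤ ∑ k ∈ Finset.range L, ‖aφ k‖ := Finset.sum_nonneg fun _ _ => norm_nonneg _
    refine ⟨ε / (8 * (∑ k ∈ Finset.range L, ‖aφ k‖ + 1)), by positivity, ?_⟩
    rw [div_mul_eq_mul_div, div_le_div_iff₀ (by positivity) (by norm_num)]
    nlinarith
  obtain ⟨G, b, hGs, hG0, hGγ, hGB, hGb⟩ := hKD L γ a ε₁ hL0 hε₁ hγ1
    (fun i => ⟨_, habd i⟩) (fun i n => hRf i δ hδ L n hL1) hkey2 η hη
  have hq1 : 1 ≤ p.toReal / (p.toReal - 1) := by
    rw [le_div_iff₀ (by linarith)]; linarith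
  have h4 : (64 : ℝ) ≤ 64 ^ (p.toReal / (p.toReal - 1)) := by
    have := Real.rpow_le_rpow_of_exponent_le (by norm_num : (1 : ℝ) ≤ 64) hq1
    simpa using this
  have hGB4 := bd_mono hGB h4
  obtain ⟨g', hg'a⟩ : ∃ g' : X →L[ℂ] ℂ, ∀ x, g' x
      = ∑ k ∈ G.support, G.coeff k * S.w δ (S.T (k * δ) x) := by
    refine ⟨∑ k ∈ G.support, G.coeff k • ((S.w δ).comp (S.T (k * δ))), fun x => ?_⟩
    simp
  have hg'n : ‖g'‖ ≤ 64 := by
    refine ContinuousLinearMap.opNorm_le_bound _ (by norm_num) fun x => ?_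
    rw [hg'a]
    have h1 := hHol p.toReal hP1 G.coeff (fun k => S.w δ (S.T (k * δ) x)) 64 ‖x‖ (by norm_num)
      (norm_nonneg _) hGB4 (fun n => S.w_sum δ hδ x n) (G.natDegree + 1)
    refine (norm_sum_le _ _).trans (le_trans ?_ h1)
    exact Finset.sum_le_sum_of_subset_of_nonneg G.supp_subset_range_natDegree_succ
      (fun _ _ _ => norm_nonneg _)
  -- vanishing on the exponentials
  have hg'e : ∀ s : ℂ, 0 < s.re → G.eval (Complex.exp (-(δ * s))) = 0 → g' (S.e s) = 0 := by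
    intro s hs hGs'
    rw [hg'a]
    have h1 : ∀ k ∈ G.support, G.coeff k * S.w δ (S.T (k * δ) (S.e s))
        = (G.coeff k * Complex.exp (-(δ * s)) ^ k) * S.w δ (S.e s) := by
      intro k _
      rw [S.T_e _ _ (by positivity) hs, map_smul, smul_eq_mul, ← Complex.exp_nat_mul]
      push_cast
      rw [show -((k : ℂ) * δ * s) = k * -(δ * s) by ring]
      ring
    rw [Finset.sum_congr rfl h1, ← Finset.sum_mul]
    rw [Polynomial.eval_eq_sum, Polynomial.sum] at hGs'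
    rw [hGs', zero_mul]
  -- value at φ
  have hg'φ : ‖g' φ - g φ‖ ≤ ε := by
    let A : lp (fun _ : ℕ => ℂ) p := ⟨aφ, mem_of_bd haφbd⟩
    have hφ1 : ‖φ - S.J δ A‖ ≤ C * δ := hCφ δ hδ hδ1 A (fun k => rfl)
    have hφ2 : ‖g φ - g (S.J δ A)‖ ≤ C * δ := by
      rw [← map_sub]; exact (hgle _).trans hφ1
    have haφt : Bd p.toReal (fun k => aφ (L + k)) (ε₁ ^ p.toReal) := fun n => hRφ δ hδ L n hL1
    have ht2 : ∀ n, ‖∑ k ∈ Finset.range n, γ (L + k) * aφ (L + k)‖ ≤ ε₁ := by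
      intro n
      have h1 := hHol p.toReal hP1 (fun k => γ (L + k)) (fun k => aφ (L + k)) 1 ε₁
        zero_le_one hε₁.le (by simpa using bd_shift hγ1 L) haφt n
      exact (norm_sum_le _ _).trans (by simpa using h1)
    have ht1 : ∀ n, ‖∑ k ∈ Finset.range n, G.coeff (L + k) * aφ (L + k)‖ ≤ 64 * ε₁ := by
      intro n
      have h1 := hHol p.toReal hP1 (fun k => G.coeff (L + k)) (fun k => aφ (L + k)) 64 ε₁
        (by norm_num) hε₁.le (bd_shift hGB4 L) haφt n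
      exact (norm_sum_le _ _).trans h1
    have hg1 : ‖g (S.J δ A) - ∑ k ∈ Finset.range L, γ k * aφ k‖ ≤ ε₁ := by
      have h1 : Tendsto (fun n => ∑ k ∈ Finset.range n, γ k * aφ k) atTop (𝓝 (g (S.J δ A))) :=
        (hγ2 A).tendsto_sum_nat
      have h2 : Tendsto (fun n => ∑ k ∈ Finset.range (L + n), γ k * aφ k) atTop
          (𝓝 (g (S.J δ A))) := by
        have := (tendsto_add_atTop_iff_nat L).2 h1
        refine this.congr fun n => by rw [add_comm]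
      have h3 := (h2.sub_const (∑ k ∈ Finset.range L, γ k * aφ k)).norm
      refine le_of_tendsto h3 (Eventually.of_forall fun n => ?_)
      rw [Finset.sum_range_add, add_sub_cancel_left]
      exact ht2 n
    have hg2 : g' φ = ∑ k ∈ Finset.range (L + (G.natDegree + 1)), G.coeff k * aφ k := by
      rw [hg'a]
      refine Finset.sum_subset ?_ ?_
      · intro k hk
        have := G.supp_subset_range_natDegree_succ hk
        simp only [Finset.mem_range] at this ⊢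
        omega
      · intro k _ hk
        rw [Polynomial.notMem_support_iff.1 hk, zero_mul]
    have hg3 : ‖g' φ - ∑ k ∈ Finset.range L, G.coeff k * aφ k‖ ≤ 64 * ε₁ := by
      rw [hg2, Finset.sum_range_add, add_sub_cancel_left]
      exact ht1 _
    have hg4 : ‖∑ k ∈ Finset.range L, G.coeff k * aφ k - ∑ k ∈ Finset.range L, γ k * aφ k‖
        ≤ ε / 8 := by
      rw [← Finset.sum_sub_distrib]
      refine le_trans ((norm_sum_le _ _).trans (Finset.sum_le_sum (g := fun k => η * ‖aφ k‖)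
        fun k hk => ?_)) ?_
      · rw [← sub_mul, norm_mul]
        gcongr
        exact hGγ k (Finset.mem_range.1 hk)
      · rw [← Finset.mul_sum]; exact hη2
    have e : g' φ - g φ = (g' φ - ∑ k ∈ Finset.range L, G.coeff k * aφ k)
        + (∑ k ∈ Finset.range L, G.coeff k * aφ k - ∑ k ∈ Finset.range L, γ k * aφ k)
        - (g (S.J δ A) - ∑ k ∈ Finset.range L, γ k * aφ k) - (g φ - g (S.J δ A)) := by ring
    rw [e]
    refine (norm_sub_le _ _).trans ?_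
    have h5 := norm_sub_le ((g' φ - ∑ k ∈ Finset.range L, G.coeff k * aφ k)
        + (∑ k ∈ Finset.range L, G.coeff k * aφ k - ∑ k ∈ Finset.range L, γ k * aφ k))
        (g (S.J δ A) - ∑ k ∈ Finset.range L, γ k * aφ k)
    have h6 := norm_add_le (g' φ - ∑ k ∈ Finset.range L, G.coeff k * aφ k)
        (∑ k ∈ Finset.range L, G.coeff k * aφ k - ∑ k ∈ Finset.range L, γ k * aφ k)
    linarith
  -- the approximating elements
  set Z : Set ℂ := {s : ℂ | 0 < s.re ∧ G.eval (Complex.exp (-(δ * s))) = 0} with hZ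
  have happ : ∀ i, ∃ Λ : Finset ℂ, (Λ : Set ℂ) ⊆ Z ∧
      ∃ v ∈ Submodule.span ℂ (S.e '' (Λ : Set ℂ)), ‖f i - v‖ ≤ ε := by
    intro i
    let A : lp (fun _ : ℕ => ℂ) p := ⟨a i, mem_of_bd (habd i)⟩
    have hA1 : ‖f i - S.J δ A‖ ≤ C * δ := hCf i δ hδ hδ1 A (fun k => rfl)
    obtain ⟨hb1, hb2⟩ := hGb i
    let D : lp (fun _ : ℕ => ℂ) p := ⟨fun k => b i k - a i k, mem_of_bd hb1⟩
    have hD1 : ‖D‖ ≤ K * ε₁ := norm_le_of_bd hP0 (by positivity) hb1
    have hBk : ∀ k, (A + D) k = b i k := by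
      intro k
      change a i k + (b i k - a i k) = b i k
      ring
    have hbt : Tendsto (b i) atTop (𝓝 0) := by
      refine (tendsto_of_mem hP0 (A + D)).congr hBk
    obtain ⟨Λ, c, hΛ, hbΛ⟩ := hRec G (b i) hGs hG0 hbt hb2
    set W : Submodule ℂ X := Submodule.span ℂ (S.e '' Z) with hW
    have hJB : S.J δ (A + D) ∈ W.topologicalClosure := by
      let geo : ℂ → lp (fun _ : ℕ => ℂ) p := fun l =>
        if h : ‖l‖ < 1 then ⟨fun k => l ^ k, geo_mem hP1.le h⟩ else 0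
      have hgeo : ∀ l, ‖l‖ < 1 → ∀ k, geo l k = l ^ k := by
        intro l hl k
        simp only [geo, hl, dif_pos]
      have e1 : A + D = ∑ l ∈ Λ, c l • geo l := by
        apply lp.ext
        funext k
        rw [hBk k, hbΛ k, lp.coeFn_sum, Finset.sum_apply]
        refine Finset.sum_congr rfl fun l hl => ?_
        rw [lp.coeFn_smul, Pi.smul_apply, hgeo l (hΛ l hl).2.1 k, smul_eq_mul]
      rw [e1, map_sum]
      refine Submodule.sum_mem _ fun l hl => ?_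
      rw [map_smul]
      refine Submodule.smul_mem _ _ ?_
      have h1 := S.J_geo δ hδ l (hΛ l hl).1 (hΛ l hl).2.1 (geo l) (hgeo l (hΛ l hl).2.1)
      refine closure_mono ?_ h1
      refine Submodule.span_mono ?_
      rintro x ⟨s, hs1, hs2, rfl⟩
      refine ⟨s, ⟨hs1, ?_⟩, rfl⟩
      rw [hs2]; exact (hΛ l hl).2.2
    have hJB' : S.J δ (A + D) ∈ closure (W : Set X) := hJB
    obtain ⟨v, hvW, hv⟩ := Metric.mem_closure_iff.1 hJB' ε₁ hε₁
    obtain ⟨T, hT1, hT2⟩ := Submodule.mem_span_finite_of_mem_span hvW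
    obtain ⟨Λ', hΛ'1, hΛ'2⟩ := Finset.subset_set_image_iff.1 hT1
    refine ⟨Λ', hΛ'1, v, ?_, ?_⟩
    · rw [← hΛ'2, Finset.coe_image] at hT2
      exact hT2
    · have e : f i - v = (f i - S.J δ A) - S.J δ D + (S.J δ (A + D) - v) := by
        rw [map_add]; abel
      rw [e]
      have h1 : ‖S.J δ D‖ ≤ K * ε₁ := (S.J_le δ hδ D).trans hD1
      have h2 := norm_add_le ((f i - S.J δ A) - S.J δ D) (S.J δ (A + D) - v)
      have h3 := norm_sub_le (f i - S.J δ A) (S.J δ D)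
      rw [dist_eq_norm] at hv
      linarith
  choose Λ hΛ1 v hv1 hv2 using happ
  have hΛZ : ∀ s ∈ Finset.univ.biUnion Λ, s ∈ Z := by
    intro s hs
    obtain ⟨i, _, hi⟩ := Finset.mem_biUnion.1 hs
    exact hΛ1 i hi
  refine ⟨Finset.univ.biUnion Λ, g', fun s hs => (hΛZ s hs).1, hg'n,
    fun s hs => hg'e s (hΛZ s hs).1 (hΛZ s hs).2, hg'φ, fun i => ?_⟩
  have hmem : v i ∈ (Submodule.span ℂ (S.e '' (Finset.univ.biUnion Λ : Set ℂ)) : Set X) := by
    refine Submodule.span_mono ?_ (hv1 i)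
    refine Set.image_mono ?_
    intro s hs
    exact Finset.mem_coe.2 (Finset.mem_biUnion.2 ⟨i, Finset.mem_univ _, hs⟩)
  refine (Metric.infDist_le_dist_of_mem hmem).trans ?_
  rw [dist_eq_norm]
  exact hv2 i

end HM
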